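import Pool.Agent.H961.T4.Stm2
import Pool.Graph.R_pool_sql_team_seeded_3997aac3.Q295.PL.All

/-!
# Project PN: the number of cycles in the plane
-/

set_option autoImplicit false
set_option linter.unusedSectionVars false
set_option linter.unusedVariables false

namespace Pool.Agent.H407.PN

open Finset Equiv Matrix Q292.LC Pool.Agent.H961.T2 Pool.Agent.H961.T3 Pool.Agent.H961.T4
open Pool.Agent.Y998.ST (stirExp nnRate cycleLen nn_nonneg exp_mono exp_sum exp_const)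
open Pool.Agent.Q297.LC (stir_smul card_cyc)

theorem rc_two_le (k : ℕ) : rc 2 k ≤ rr 3 k := by
  unfold rc rr
  refine (rc_summable 2 k (by norm_num)).tsum_le_tsum (fun i => ?_) (rr_summable 3 k le_rfl)
  refine Real.rpow_le_rpow_of_exponent_le ?_ (by push_cast; norm_num)
  have : (0 : ℝ) ≤ (i : ℝ) + k := by positivity
  linarith

/-- Abel summation -/
theorem abel_le (f : ℕ → ℝ) (hf : ∀ ℓ, 0 ≤ f ℓ) (k N : ℕ) (hk : 1 ≤ k) (hkN : k ≤ N) :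
    ∑ ℓ ∈ Ioc k N, f ℓ / ℓ ≤ 1 / N * (∑ ℓ ∈ Icc 1 N, f ℓ) +
      ∑ n ∈ Ico k N, 1 / ((n : ℝ) * (n + 1)) * (∑ ℓ ∈ Icc 1 n, f ℓ) := by
  induction N, hkN using Nat.le_induction with
  | base =>
    rw [Ioc_self, sum_empty, Ico_self, sum_empty, add_zero]
    exact mul_nonneg (by positivity) (sum_nonneg fun ℓ _ => hf ℓ)
  | succ N hN ih =>
    rw [sum_Ioc_succ_top hN, sum_Ico_succ_top hN, sum_Icc_succ_top (by omega)]
    have hN0 : (0 : ℝ) < N := by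
      have : 0 < N := by omega
      exact_mod_cast this
    obtain ⟨S, hS⟩ : ∃ S : ℝ, S = ∑ ℓ ∈ Icc 1 N, f ℓ := ⟨_, rfl⟩
    rw [← hS] at ih ⊢
    have e : 1 / ((N + 1 : ℕ) : ℝ) * (S + f (N + 1)) =
        1 / N * S - 1 / ((N : ℝ) * (N + 1)) * S + f (N + 1) / ((N + 1 : ℕ) : ℝ) := by
      push_cast
      field_simp
      ring
    rw [e]
    linarith

theorem ico_sum_le (k N : ℕ) :
    ∑ n ∈ Ico (k + 1) N, (n : ℝ) ^ (-(((3 : ℕ) : ℝ) / 2)) ≤ rr 3 k := by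
  by_cases h : k + 1 ≤ N
  · have e : Ico (k + 1) N = Ioc k (N - 1) := by
      ext x
      simp only [mem_Ico, mem_Ioc]
      omega
    rw [e]
    exact bsum_le 3 le_rfl k (N - 1) (by omega)
  · rw [Ico_eq_empty (by omega), sum_empty]
    exact rr_nonneg 3 k

section torus

variable {L : ℕ} [NeZero L]

theorem number2_pt (Q : ℝ) (hQ : 0 ≤ Q) (k N1 N2 : ℕ) (hk : 1 ≤ k) (h1 : k ≤ N1) (h2 : N1 ≤ N2)
    (h3 : N2 ≤ L ^ 2) (g : Perm (Fin 2 → ZMod L)) :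
    |Q * ((g.partition.parts.card : ℝ) / (L : ℝ) ^ 2) - rc 2 0| ≤
      (∑ ℓ ∈ Icc 1 k, |Q * frac g ℓ - (ℓ : ℝ) ^ (-(((2 : ℕ) : ℝ) / 2))|) +
      (rc 2 k + Q / N2 + (Q * (1 / N1) * (∑ ℓ ∈ Icc 1 N1, frac g ℓ) +
      (∑ n ∈ Ico k N1, Q * (1 / ((n : ℝ) * (n + 1))) * (∑ ℓ ∈ Icc 1 n, frac g ℓ)) +
      Q * (1 / N1) * (∑ ℓ ∈ Icc 1 N2, frac g ℓ))) := by
  have hk0 : (0 : ℝ) < k := by exact_mod_cast hk
  have hN10 : (0 : ℝ) < N1 := by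
    have : 0 < N1 := by omega
    exact_mod_cast this
  have hN20 : (0 : ℝ) < N2 := by
    have : 0 < N2 := by omega
    exact_mod_cast this
  rw [parts_card, rc_split 2 (by norm_num) k, Icc_split k (L ^ 2) (h1.trans (h2.trans h3))]
  have e1 : Q * (∑ ℓ ∈ Icc 1 k, frac g ℓ / ℓ + ∑ ℓ ∈ Ioc k (L ^ 2), frac g ℓ / ℓ) -
      (∑ ℓ ∈ Icc 1 k, (ℓ : ℝ) ^ (-(1 + ((2 : ℕ) : ℝ) / 2)) + rc 2 k) =
      ∑ ℓ ∈ Icc 1 k, (Q * frac g ℓ - (ℓ : ℝ) ^ (-(((2 : ℕ) : ℝ) / 2))) / ℓ +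
        (Q * ∑ ℓ ∈ Ioc k (L ^ 2), frac g ℓ / ℓ - rc 2 k) := by
    have e2 : ∀ ℓ ∈ Icc 1 k, (Q * frac g ℓ - (ℓ : ℝ) ^ (-(((2 : ℕ) : ℝ) / 2))) / ℓ =
        Q * (frac g ℓ / ℓ) - (ℓ : ℝ) ^ (-(1 + ((2 : ℕ) : ℝ) / 2)) := by
      intro ℓ hℓ
      have hℓ0 : (0 : ℝ) < ℓ := by
        have := (mem_Icc.1 hℓ).1
        exact_mod_cast this
      have e3 : (ℓ : ℝ) ^ (-(1 + ((2 : ℕ) : ℝ) / 2)) = (ℓ : ℝ) ^ (-(((2 : ℕ) : ℝ) / 2)) / ℓ := by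
        rw [neg_add, add_comm, Real.rpow_add hℓ0, Real.rpow_neg_one]
        rfl
      rw [e3]
      ring
    rw [sum_congr rfl e2, sum_sub_distrib, mul_add, mul_sum]
    ring
  rw [e1]
  refine (abs_add_le _ _).trans ?_
  refine add_le_add ?_ ?_
  · refine (abs_sum_le_sum_abs _ _).trans (sum_le_sum fun ℓ hℓ => ?_)
    have hℓ1 : (1 : ℝ) ≤ ℓ := by
      have := (mem_Icc.1 hℓ).1
      exact_mod_cast this
    rw [abs_div, abs_of_pos (by linarith : (0 : ℝ) < ℓ)]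
    exact div_le_self (abs_nonneg _) hℓ1
  · have key : ∀ (a b : ℕ), 0 < a → ∑ ℓ ∈ Ioc a b, frac g ℓ / ℓ ≤
        1 / a * ∑ ℓ ∈ Ioc a b, frac g ℓ := by
      intro a b ha
      have ha0 : (0 : ℝ) < a := by exact_mod_cast ha
      rw [mul_sum]
      refine sum_le_sum fun ℓ hℓ => ?_
      have hℓn : (a : ℝ) ≤ ℓ := by
        have := (mem_Ioc.1 hℓ).1
        exact_mod_cast this.le
      rw [div_eq_mul_one_div, mul_comm]
      exact mul_le_mul_of_nonneg_right (one_div_le_one_div_of_le ha0 hℓn) (frac_nonneg g ℓ)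
    have f1 : 0 ≤ ∑ ℓ ∈ Ioc k (L ^ 2), frac g ℓ / ℓ :=
      sum_nonneg fun ℓ _ => div_nonneg (frac_nonneg g ℓ) (Nat.cast_nonneg _)
    have s1 : ∑ ℓ ∈ Ioc k (L ^ 2), frac g ℓ / ℓ = ∑ ℓ ∈ Ioc k N1, frac g ℓ / ℓ +
        (∑ ℓ ∈ Ioc N1 N2, frac g ℓ / ℓ + ∑ ℓ ∈ Ioc N2 (L ^ 2), frac g ℓ / ℓ) := by
      rw [sum_Ioc_consecutive _ h2 h3, sum_Ioc_consecutive _ h1 (h2.trans h3)]
    have s2 := abel_le (frac g) (frac_nonneg g) k N1 hk h1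
    have s3 : ∑ ℓ ∈ Ioc N1 N2, frac g ℓ / ℓ ≤ 1 / N1 * ∑ ℓ ∈ Icc 1 N2, frac g ℓ := by
      refine (key N1 N2 (by omega)).trans ?_
      refine mul_le_mul_of_nonneg_left ?_ (by positivity)
      refine sum_le_sum_of_subset_of_nonneg ?_ fun ℓ _ _ => frac_nonneg g ℓ
      intro x hx
      rw [mem_Ioc] at hx
      rw [mem_Icc]
      omega
    have s4 : ∑ ℓ ∈ Ioc N2 (L ^ 2), frac g ℓ / ℓ ≤ 1 / N2 := by
      refine (key N2 (L ^ 2) (by omega)).trans ?_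
      exact mul_le_of_le_one_right (by positivity) (sum_frac_le_one g _)
    have s5 : Q * ∑ ℓ ∈ Ioc k (L ^ 2), frac g ℓ / ℓ ≤
        Q * ((1 / N1 * (∑ ℓ ∈ Icc 1 N1, frac g ℓ) +
      ∑ n ∈ Ico k N1, 1 / ((n : ℝ) * (n + 1)) * (∑ ℓ ∈ Icc 1 n, frac g ℓ)) +
      (1 / N1 * ∑ ℓ ∈ Icc 1 N2, frac g ℓ + 1 / N2)) := by
      refine mul_le_mul_of_nonneg_left ?_ hQ
      rw [s1]
      exact add_le_add s2 (add_le_add s3 s4)
    have s6 : Q * ((1 / N1 * (∑ ℓ ∈ Icc 1 N1, frac g ℓ) +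
      ∑ n ∈ Ico k N1, 1 / ((n : ℝ) * (n + 1)) * (∑ ℓ ∈ Icc 1 n, frac g ℓ)) +
      (1 / N1 * ∑ ℓ ∈ Icc 1 N2, frac g ℓ + 1 / N2)) =
      Q / N2 + (Q * (1 / N1) * (∑ ℓ ∈ Icc 1 N1, frac g ℓ) +
      (∑ n ∈ Ico k N1, Q * (1 / ((n : ℝ) * (n + 1))) * (∑ ℓ ∈ Icc 1 n, frac g ℓ)) +
      Q * (1 / N1) * (∑ ℓ ∈ Icc 1 N2, frac g ℓ)) := by
      have e : ∑ n ∈ Ico k N1, Q * (1 / ((n : ℝ) * (n + 1))) * (∑ ℓ ∈ Icc 1 n, frac g ℓ) =
          Q * ∑ n ∈ Ico k N1, 1 / ((n : ℝ) * (n + 1)) * (∑ ℓ ∈ Icc 1 n, frac g ℓ) := by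
        rw [mul_sum]
        exact sum_congr rfl fun n _ => by ring
      rw [e]
      ring
    have f3 : 0 ≤ Q * ∑ ℓ ∈ Ioc k (L ^ 2), frac g ℓ / ℓ := mul_nonneg hQ f1
    have f4 := rc_nonneg 2 k
    rw [s6] at s5
    rw [abs_le]
    constructor <;> linarith

/-- the probability that the cycle of the origin is short -/
noncomputable def Fn (L : ℕ) [NeZero L] (t : ℝ) (n : ℕ) : ℝ :=
  stirExp (nnRate 2 L) t (fun g => if (cyc g 0).card ≤ n then 1 else 0)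

theorem Fn_eq (t : ℝ) (n : ℕ) :
    stirExp (nnRate 2 L) t (fun g => ∑ ℓ ∈ Icc 1 n, frac g ℓ) = Fn L t n := by
  simp only [sum_frac]
  exact exp_frac_le t n 0

theorem number2_exp (t Q : ℝ) (ht : 0 ≤ t) (hQ : 0 ≤ Q) (k N1 N2 : ℕ) (hk : 1 ≤ k)
    (h1 : k ≤ N1) (h2 : N1 ≤ N2) (h3 : N2 ≤ L ^ 2) :
    stirExp (nnRate 2 L) t (fun g =>
      |Q * ((g.partition.parts.card : ℝ) / (L : ℝ) ^ 2) - rc 2 0|) ≤
      (∑ ℓ ∈ Icc 1 k, stirExp (nnRate 2 L) t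
        (fun g => |Q * frac g ℓ - (ℓ : ℝ) ^ (-(((2 : ℕ) : ℝ) / 2))|)) +
      (rc 2 k + Q / N2 + (Q * (1 / N1) * Fn L t N1 +
      (∑ n ∈ Ico k N1, Q * (1 / ((n : ℝ) * (n + 1))) * Fn L t n) +
      Q * (1 / N1) * Fn L t N2)) := by
  refine (exp_mono nn_nonneg ht fun g => number2_pt Q hQ k N1 N2 hk h1 h2 h3 g).trans
    (le_of_eq ?_)
  have e1 : stirExp (nnRate 2 L) t (fun g => ∑ n ∈ Ico k N1,
      Q * (1 / ((n : ℝ) * (n + 1))) * (∑ ℓ ∈ Icc 1 n, frac g ℓ)) =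
      ∑ n ∈ Ico k N1, Q * (1 / ((n : ℝ) * (n + 1))) * Fn L t n := by
    rw [← exp_sum]
    refine sum_congr rfl fun n _ => ?_
    rw [stir_smul, Fn_eq]
  rw [exp_add2, exp_add2, exp_const, exp_add2, exp_add2, stir_smul, stir_smul, e1, ← exp_sum,
    Fn_eq, Fn_eq]

end torus

theorem log_le_sqrt (x : ℝ) (hx : 1 ≤ x) : 1 + Real.log x ≤ 2 * x ^ (1 / 2 : ℝ) := by
  have hx0 : 0 < x := by linarith
  have h1 := Real.log_le_sub_one_of_pos (Real.rpow_pos_of_pos hx0 (1 / 2))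
  rw [Real.log_rpow hx0] at h1
  linarith

theorem pow_big (s R : ℝ) (hs : 0 < s) : ∃ T : ℝ, 1 ≤ T ∧ ∀ x : ℝ, T ≤ x → R ≤ x ^ s := by
  obtain ⟨T, hT⟩ := Filter.eventually_atTop.1 ((tendsto_rpow_atTop hs).eventually_ge_atTop R)
  exact ⟨max T 1, le_max_right _ _, fun x hx => hT x ((le_max_left _ _).trans hx)⟩

theorem F_le (C t F : ℝ) (n : ℕ) (hC : 1 ≤ C) (ht : 0 < t) (hn : 1 ≤ n)
    (hF : F ≤ C * ((1 + Real.log n) / t)) :
    4 * Real.pi * t * F ≤ 8 * Real.pi * C * (n : ℝ) ^ (1 / 2 : ℝ) := by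
  have hpi := Real.pi_pos
  have hn1 : (1 : ℝ) ≤ n := by exact_mod_cast hn
  have h1 := log_le_sqrt n hn1
  have h2 : 4 * Real.pi * t * F ≤ 4 * Real.pi * t * (C * ((1 + Real.log n) / t)) :=
    mul_le_mul_of_nonneg_left hF (by positivity)
  have h3 : 4 * Real.pi * t * (C * ((1 + Real.log n) / t)) =
      4 * Real.pi * C * (1 + Real.log n) := by
    field_simp
  have h4 : 4 * Real.pi * C * (1 + Real.log n) ≤
      4 * Real.pi * C * (2 * (n : ℝ) ^ (1 / 2 : ℝ)) :=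
    mul_le_mul_of_nonneg_left h1 (by positivity)
  linarith

theorem term_le (C t F : ℝ) (n : ℕ) (hC : 1 ≤ C) (ht : 0 < t) (hn : 1 ≤ n)
    (hF : F ≤ C * ((1 + Real.log n) / t)) :
    4 * Real.pi * t * (1 / ((n : ℝ) * (n + 1))) * F ≤
      8 * Real.pi * C * (n : ℝ) ^ (-(((3 : ℕ) : ℝ) / 2)) := by
  have hpi := Real.pi_pos
  have hn0 : (0 : ℝ) < n := by exact_mod_cast hn
  have h1 := F_le C t F n hC ht hn hF
  have e1 : (n : ℝ) ^ (-(((3 : ℕ) : ℝ) / 2)) = (n : ℝ) ^ (1 / 2 : ℝ) * (1 / (n : ℝ) ^ 2) := by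
    have e2 : -(((3 : ℕ) : ℝ) / 2) = 1 / 2 - ((2 : ℕ) : ℝ) := by
      push_cast
      norm_num
    rw [e2, Real.rpow_sub hn0, Real.rpow_natCast, mul_one_div]
  have e3 : 4 * Real.pi * t * (1 / ((n : ℝ) * (n + 1))) * F =
      (1 / ((n : ℝ) * (n + 1))) * (4 * Real.pi * t * F) := by ring
  have hs : 0 ≤ (n : ℝ) ^ (1 / 2 : ℝ) := Real.rpow_nonneg hn0.le _
  rw [e1, e3]
  calc (1 / ((n : ℝ) * (n + 1))) * (4 * Real.pi * t * F)
      ≤ (1 / ((n : ℝ) * (n + 1))) * (8 * Real.pi * C * (n : ℝ) ^ (1 / 2 : ℝ)) :=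
        mul_le_mul_of_nonneg_left h1 (by positivity)
    _ ≤ (1 / (n : ℝ) ^ 2) * (8 * Real.pi * C * (n : ℝ) ^ (1 / 2 : ℝ)) := by
        refine mul_le_mul_of_nonneg_right ?_ (by positivity)
        refine one_div_le_one_div_of_le (by positivity) ?_
        nlinarith
    _ = 8 * Real.pi * C * ((n : ℝ) ^ (1 / 2 : ℝ) * (1 / (n : ℝ) ^ 2)) := by ring

theorem nmp (hUBP : S_UBP) : S_NMP := by
  intro ε hε
  obtain ⟨C, T₀, hC, hT₀, hub⟩ := hUBP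
  obtain ⟨C₂, c, hc, hfx⟩ := Q295.PL.all_fxt 2 le_rfl (1 / 256) (by norm_num)
  have hpi := Real.pi_pos
  have hC0 : 0 < C := by linarith
  obtain ⟨k₁, hk₁⟩ := rr_tendsto 3 le_rfl (min (ε / 8) (ε / (64 * Real.pi * C)))
    (lt_min (by positivity) (by positivity))
  obtain ⟨T₁, hT₁, hp1⟩ := pow_big (1 / 2) (64 * Real.pi * C / ε) (by norm_num)
  obtain ⟨k, hk⟩ : ∃ k : ℕ, k = k₁ + 1 + ⌈T₁⌉₊ := ⟨_, rfl⟩
  have hk1 : 1 ≤ k := by omega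
  have hkk : k₁ + 1 ≤ k := by omega
  have hkT : T₁ ≤ k := by
    refine (Nat.le_ceil T₁).trans ?_
    have : ⌈T₁⌉₊ ≤ k := by omega
    exact_mod_cast this
  have hk0 : (0 : ℝ) < k := by exact_mod_cast hk1
  obtain ⟨e, he⟩ : ∃ e : ℝ, e = ε / (8 * k) := ⟨_, rfl⟩
  have he0 : 0 < e := by rw [he]; positivity
  obtain ⟨T₂, hT₂, hlen⟩ := len_all 2 (by norm_num) k e he0
  obtain ⟨B, hB⟩ : ∃ B : ℝ, B = 32 * Real.pi / ε + 1 := ⟨_, rfl⟩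
  have hB1 : 1 ≤ B := by
    rw [hB]
    have : 0 ≤ 32 * Real.pi / ε := by positivity
    linarith
  obtain ⟨T₃, hT₃, hexp⟩ := exp_beats 1 c (B + 1) hc (by linarith)
  obtain ⟨C₃, hC₃⟩ : ∃ C₃ : ℝ, C₃ = max C₂ 1 := ⟨_, rfl⟩
  have hC31 : 1 ≤ C₃ := by rw [hC₃]; exact le_max_right _ _
  have hC32 : C₂ ≤ C₃ := by rw [hC₃]; exact le_max_left _ _
  obtain ⟨T₄, hT₄, hp4⟩ := pow_big (3 / 256) (128 * Real.pi * C₃ / ε) (by norm_num)
  obtain ⟨T₅, hT₅, hp5⟩ := pow_big (1 / 64) (k + 1) (by norm_num)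
  obtain ⟨T, hT⟩ : ∃ T : ℝ, T = T₀ + T₂ + T₃ + T₄ + T₅ + B + C₃ + 1 := ⟨_, rfl⟩
  have hT3 : 3 ≤ T := by rw [hT]; linarith
  refine ⟨T, hT3, ?_⟩
  intro L _ t htT htL
  have ht3 : 3 ≤ t := hT3.trans htT
  have ht0 : 0 < t := by linarith
  have ht1 : 1 ≤ t := by linarith
  have hL0 : (0 : ℝ) < L := by exact_mod_cast Nat.pos_of_ne_zero (NeZero.ne L)
  have hL1 : (1 : ℝ) ≤ L := by
    have : 1 ≤ L := Nat.pos_of_ne_zero (NeZero.ne L)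
    exact_mod_cast this
  have hT0t : T₀ ≤ t := le_trans (by rw [hT]; linarith) htT
  have hT2t : T₂ ≤ t := le_trans (by rw [hT]; linarith) htT
  have hT3t : T₃ ≤ t := le_trans (by rw [hT]; linarith) htT
  have hT4t : T₄ ≤ t := le_trans (by rw [hT]; linarith) htT
  have hT5t : T₅ ≤ t := le_trans (by rw [hT]; linarith) htT
  have hC2t : C₂ ≤ t := le_trans (by rw [hT]; linarith) htT
  have hBT : B + 1 ≤ T := by rw [hT]; linarith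
  have hT0T : T₀ ≤ T := by rw [hT]; linarith
  have hT2T : T₂ ≤ T := by rw [hT]; linarith
  have hLL : (L : ℝ) ≤ (L : ℝ) ^ 2 := by nlinarith
  have htL0 : T₀ * t ≤ L := (mul_le_mul_of_nonneg_right hT0T ht0.le).trans htL
  have htL2 : T₂ * t ≤ (L : ℝ) ^ 2 :=
    ((mul_le_mul_of_nonneg_right hT2T ht0.le).trans htL).trans hLL
  have hL3 : 3 ≤ L := by
    have : (3 : ℝ) ≤ L := by nlinarith
    exact_mod_cast this
  -- `N1`
  obtain ⟨N1, hN1⟩ : ∃ N1 : ℕ, N1 = ⌊t ^ (1 / 64 : ℝ)⌋₊ := ⟨_, rfl⟩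
  have htp : 0 < t ^ (1 / 64 : ℝ) := Real.rpow_pos_of_pos ht0 _
  have hN1a : (N1 : ℝ) ≤ t ^ (1 / 64 : ℝ) := by rw [hN1]; exact Nat.floor_le htp.le
  have hN1b : t ^ (1 / 64 : ℝ) < N1 + 1 := by rw [hN1]; exact Nat.lt_floor_add_one _
  have hkN1 : k ≤ N1 := by
    have h1 := hp5 t hT5t
    have h2 : (k : ℝ) ≤ N1 := by linarith
    exact_mod_cast h2
  have hN11 : (1 : ℝ) ≤ N1 := by
    have : 1 ≤ N1 := hk1.trans hkN1
    exact_mod_cast this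
  have hN1h : t ^ (1 / 64 : ℝ) ≤ 2 * N1 := by linarith
  have hN10 : (0 : ℝ) < N1 := by linarith
  -- `N2`
  obtain ⟨N2, hN2⟩ : ∃ N2 : ℕ, N2 = ⌈B * t⌉₊ := ⟨_, rfl⟩
  have hN2a : B * t ≤ N2 := by rw [hN2]; exact Nat.le_ceil _
  have hN2b : (N2 : ℝ) ≤ (B + 1) * t := by
    have := Nat.ceil_lt_add_one (show 0 ≤ B * t by positivity)
    rw [hN2]
    linarith
  have htt : t ^ (1 / 64 : ℝ) ≤ t := by
    calc t ^ (1 / 64 : ℝ) ≤ t ^ (1 : ℝ) :=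
          Real.rpow_le_rpow_of_exponent_le ht1 (by norm_num)
      _ = t := Real.rpow_one t
  have hN12 : N1 ≤ N2 := by
    have h1 : (N1 : ℝ) ≤ N2 := by
      have : t ≤ B * t := le_mul_of_one_le_left ht0.le hB1
      linarith
    exact_mod_cast h1
  have hN20 : (0 : ℝ) < N2 := lt_of_lt_of_le (by positivity) hN2a
  have hN2t : (N2 : ℝ) * t ≤ (L : ℝ) ^ 2 := by
    have h1 : (N2 : ℝ) * t ≤ (T * t) * (T * t) := by
      have h2 : (N2 : ℝ) ≤ T * t := hN2b.trans (mul_le_mul_of_nonneg_right hBT ht0.le)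
      have h3 : t ≤ T * t := le_mul_of_one_le_left ht0.le (by linarith)
      exact mul_le_mul h2 h3 ht0.le (by positivity)
    have h4 : (T * t) * (T * t) ≤ (L : ℝ) * L :=
      mul_le_mul htL htL (by positivity) hL0.le
    rw [sq]
    exact h1.trans h4
  have hN2L : N2 ≤ L ^ 2 := by
    have h1 : (N2 : ℝ) ≤ (L : ℝ) ^ 2 :=
      (le_mul_of_one_le_right hN20.le ht1).trans hN2t
    exact_mod_cast h1
  obtain ⟨Q, hQ⟩ : ∃ Q : ℝ, Q = 4 * Real.pi * t := ⟨_, rfl⟩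
  have hQ0 : 0 < Q := by rw [hQ]; positivity
  have hQe : (4 * Real.pi * t) ^ (((2 : ℕ) : ℝ) / 2) = Q := by
    rw [show ((2 : ℕ) : ℝ) / 2 = 1 by push_cast; norm_num, Real.rpow_one, hQ]
  have hmain := number2_exp (L := L) t Q ht0.le hQ0.le k N1 N2 hk1 hkN1 hN12 hN2L
  rw [← hQ]
  refine hmain.trans ?_
  -- the five error terms
  have E1 : ∑ ℓ ∈ Icc 1 k, stirExp (nnRate 2 L) t
      (fun g => |Q * frac g ℓ - (ℓ : ℝ) ^ (-(((2 : ℕ) : ℝ) / 2))|) ≤ ε / 8 := by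
    have h1 : ∀ ℓ ∈ Icc 1 k, stirExp (nnRate 2 L) t
        (fun g => |Q * frac g ℓ - (ℓ : ℝ) ^ (-(((2 : ℕ) : ℝ) / 2))|) ≤ e := by
      intro ℓ hℓ
      have h2 := hlen L hL3 t hT2t htL2 ℓ (mem_Icc.1 hℓ).1 (mem_Icc.1 hℓ).2
      rw [hQe] at h2
      exact h2
    refine (sum_le_sum h1).trans (le_of_eq ?_)
    rw [sum_const, Nat.card_Icc, nsmul_eq_mul, Nat.add_sub_cancel, he]
    field_simp
  have E2 : rc 2 k ≤ ε / 8 :=
    (rc_two_le k).trans ((rr_anti 3 le_rfl (by omega)).trans (hk₁.trans (min_le_left _ _)))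
  have E5 : Q / N2 ≤ ε / 8 := by
    rw [div_le_iff₀ hN20]
    have h1 : ε / 8 * (B * t) ≤ ε / 8 * N2 := mul_le_mul_of_nonneg_left hN2a (by positivity)
    have h2 : ε / 8 * (B * t) = Q + ε / 8 * t := by
      rw [hB, hQ]
      field_simp
      ring
    have h3 : 0 ≤ ε / 8 * t := by positivity
    linarith
  have hub' : ∀ n : ℕ, 1 ≤ n → n ≤ N1 → Fn L t n ≤ C * ((1 + Real.log n) / t) := by
    intro n hn hnN
    refine hub L t n hT0t htL0 hn ?_ 0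
    refine le_trans ?_ hN1a
    exact_mod_cast hnN
  have E3a : Q * (1 / N1) * Fn L t N1 ≤ ε / 8 := by
    have h1 := F_le C t (Fn L t N1) N1 hC ht0 (hk1.trans hkN1) (hub' N1 (hk1.trans hkN1) le_rfl)
    rw [← hQ] at h1
    have h2 := hp1 N1 (hkT.trans (by exact_mod_cast hkN1))
    have h3 : (N1 : ℝ) = (N1 : ℝ) ^ (1 / 2 : ℝ) * (N1 : ℝ) ^ (1 / 2 : ℝ) := by
      rw [← Real.rpow_add hN10]
      norm_num
    have hs : 0 < (N1 : ℝ) ^ (1 / 2 : ℝ) := Real.rpow_pos_of_pos hN10 _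
    have h4 : Q * (1 / N1) * Fn L t N1 = (Q * Fn L t N1) / N1 := by ring
    rw [h4, div_le_iff₀ hN10]
    rw [div_le_iff₀ hε] at h2
    have h5 : 8 * Real.pi * C * (N1 : ℝ) ^ (1 / 2 : ℝ) ≤
        (N1 : ℝ) ^ (1 / 2 : ℝ) * ε / 8 * (N1 : ℝ) ^ (1 / 2 : ℝ) :=
      mul_le_mul_of_nonneg_right (by linarith) hs.le
    have h6 : (N1 : ℝ) ^ (1 / 2 : ℝ) * ε / 8 * (N1 : ℝ) ^ (1 / 2 : ℝ) = ε / 8 * N1 := by
      conv_rhs => rw [h3]
      ring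
    linarith
  have E3b : ∑ n ∈ Ico k N1, Q * (1 / ((n : ℝ) * (n + 1))) * Fn L t n ≤ ε / 8 := by
    have h1 : ∀ n ∈ Ico k N1, Q * (1 / ((n : ℝ) * (n + 1))) * Fn L t n ≤
        8 * Real.pi * C * (n : ℝ) ^ (-(((3 : ℕ) : ℝ) / 2)) := by
      intro n hn
      rw [mem_Ico] at hn
      rw [hQ]
      exact term_le C t (Fn L t n) n hC ht0 (by omega) (hub' n (by omega) (by omega))
    refine (sum_le_sum h1).trans ?_
    rw [← mul_sum]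
    have h2 : ∑ n ∈ Ico k N1, (n : ℝ) ^ (-(((3 : ℕ) : ℝ) / 2)) ≤ rr 3 k₁ := by
      refine le_trans ?_ (ico_sum_le k₁ N1)
      refine sum_le_sum_of_subset_of_nonneg ?_ fun n _ _ =>
        Real.rpow_nonneg (Nat.cast_nonneg _) _
      intro x hx
      rw [mem_Ico] at hx ⊢
      omega
    have h3 := h2.trans (hk₁.trans (min_le_right _ _))
    calc 8 * Real.pi * C * ∑ n ∈ Ico k N1, (n : ℝ) ^ (-(((3 : ℕ) : ℝ) / 2))
        ≤ 8 * Real.pi * C * (ε / (64 * Real.pi * C)) :=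
          mul_le_mul_of_nonneg_left h3 (by positivity)
      _ = ε / 8 := by
          field_simp
          norm_num
  have E4 : Q * (1 / N1) * Fn L t N2 ≤ ε / 8 := by
    have h0 : (N2 : ℝ) ≤ Real.exp (t ^ c) := by
      refine hN2b.trans ?_
      have := hexp t hT3t
      rwa [Real.rpow_one] at this
    have h1 : Fn L t N2 ≤ C₂ * t ^ (1 / 256 : ℝ) * (1 / t + N2 / (L : ℝ) ^ 2) :=
      hfx L N2 t hC2t h0 hN2t 0
    have h2 : (N2 : ℝ) / (L : ℝ) ^ 2 ≤ 1 / t := by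
      rw [div_le_div_iff₀ (by positivity) ht0]
      linarith
    have hu : 0 < t ^ (1 / 256 : ℝ) := Real.rpow_pos_of_pos ht0 _
    have h3 : Fn L t N2 ≤ C₃ * t ^ (1 / 256 : ℝ) * (2 / t) := by
      refine h1.trans ?_
      refine mul_le_mul (mul_le_mul_of_nonneg_right hC32 hu.le) ?_ (by positivity)
        (by positivity)
      have : 2 / t = 1 / t + 1 / t := by ring
      linarith
    have h4 : Q * (1 / N1) * Fn L t N2 ≤ Q * (1 / N1) * (C₃ * t ^ (1 / 256 : ℝ) * (2 / t)) :=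
      mul_le_mul_of_nonneg_left h3 (by positivity)
    have h5 : Q * (1 / N1) * (C₃ * t ^ (1 / 256 : ℝ) * (2 / t)) =
        8 * Real.pi * C₃ * t ^ (1 / 256 : ℝ) / N1 := by
      rw [hQ]
      field_simp
      ring
    have h6 : t ^ (1 / 64 : ℝ) = t ^ (1 / 256 : ℝ) * t ^ (3 / 256 : ℝ) := by
      rw [← Real.rpow_add ht0]
      norm_num
    have h7 := hp4 t hT4t
    rw [div_le_iff₀ hε] at h7
    refine h4.trans ?_
    rw [h5, div_le_iff₀ hN10]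
    have h8 : ε / 16 * t ^ (1 / 64 : ℝ) ≤ ε / 8 * N1 := by
      have := mul_le_mul_of_nonneg_left hN1h (show 0 ≤ ε / 16 by positivity)
      linarith
    have h9 : 8 * Real.pi * C₃ * t ^ (1 / 256 : ℝ) ≤ ε / 16 * t ^ (1 / 64 : ℝ) := by
      rw [h6]
      have : t ^ (1 / 256 : ℝ) * (128 * Real.pi * C₃) ≤
          t ^ (1 / 256 : ℝ) * (t ^ (3 / 256 : ℝ) * ε) := mul_le_mul_of_nonneg_left h7 hu.le
      linarith
    exact h9.trans h8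
  linarith

end Pool.Agent.H407.PN
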